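import Pool.Agent.W764.HL.Gen
import Pool.Agent.H847R3.SuppA

/-!
Overlap of a measure on the circle with the translates of another one, when both are invariant
under multiplication by `p` and by `q`.
-/

set_option autoImplicit false

open MeasureTheory Filter Topology Set
open scoped ENNReal

namespace Pool.Agent.TH277.FT

abbrev T := UnitAddCircle

/-- the translate of a measure -/
noncomputable def tr (β : T) (ν : Measure T) : Measure T := ν.map (fun x => x + β)

lemma meas_add (β : T) : Measurable (fun x : T => x + β) := measurable_add_const β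

lemma meas_smul (n : ℕ) : Measurable (fun x : T => n • x) := (continuous_nsmul n).measurable

lemma tr_smul {ν : Measure T} {n : ℕ} (h : MeasurePreserving (fun x : T => n • x) ν ν) (β : T) :
    (tr β ν).map (fun x : T => n • x) = tr (n • β) ν := by
  unfold tr
  rw [Measure.map_map (meas_smul n) (meas_add β)]
  have e : (fun x : T => n • x) ∘ (fun x => x + β) = (fun x => x + n • β) ∘ fun x : T => n • x := by
    funext x
    simp
  rw [e, ← Measure.map_map (meas_add _) (meas_smul n), h.map_eq]

/-- `μ ⊓ ν` is not zero if the measures are not mutually singular -/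
lemma inf_ne {μ ν : Measure T} [IsFiniteMeasure μ] [IsFiniteMeasure ν] (h : ¬ μ ⟂ₘ ν) :
    μ ⊓ ν ≠ 0 := by
  intro h0
  apply h
  have hLD : μ.HaveLebesgueDecomposition ν := Measure.haveLebesgueDecomposition_of_sigmaFinite μ ν
  have h1 := μ.haveLebesgueDecomposition_add ν
  set κ : Measure T := ν.withDensity (fun x => min (μ.rnDeriv ν x) 1) with hκ
  have hm : Measurable (μ.rnDeriv ν) := Measure.measurable_rnDeriv _ _
  have hk1 : κ ≤ μ := by
    calc κ ≤ ν.withDensity (μ.rnDeriv ν) := withDensity_mono (ae_of_all _ fun x => min_le_left _ _)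
      _ ≤ μ := Measure.withDensity_rnDeriv_le _ _
  have hk2 : κ ≤ ν := by
    calc κ ≤ ν.withDensity (fun _ => 1) := withDensity_mono (ae_of_all _ fun x => min_le_right _ _)
      _ = ν := withDensity_one
  have hk : κ = 0 := le_antisymm ((le_inf hk1 hk2).trans h0.le) bot_le
  rw [hκ, withDensity_eq_zero_iff (hm.min measurable_const).aemeasurable] at hk
  have h2 : μ.rnDeriv ν =ᵐ[ν] 0 := by
    filter_upwards [hk] with x hx
    have hx' : min (μ.rnDeriv ν x) 1 = 0 := hx
    rcases min_eq_iff.1 hx' with h3 | h3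
    · exact h3.1
    · exact absurd h3.1 one_ne_zero
  have h3 : ν.withDensity (μ.rnDeriv ν) = 0 := by
    rw [withDensity_congr_ae h2]
    exact withDensity_zero
  rw [h3, add_zero] at h1
  rw [h1]
  exact Measure.mutuallySingular_singularPart _ _

/-- comparable finite measures of equal mass are equal -/
lemma eq_of_le_univ {ν ρ : Measure T} [IsFiniteMeasure ρ] (h : ν ≤ ρ) (hu : ρ univ ≤ ν univ) :
    ν = ρ := by
  have : IsFiniteMeasure ν := isFiniteMeasure_of_le ρ h
  refine Measure.ext fun s hs => le_antisymm (h s) ?_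
  by_contra hlt
  push Not at hlt
  have h1 : ν univ < ρ univ := by
    rw [← measure_add_measure_compl hs, ← measure_add_measure_compl (μ := ρ) hs]
    exact ENNReal.add_lt_add_of_lt_of_le (measure_ne_top _ _) hlt (h sᶜ)
  exact absurd hu (not_le.2 h1)

/-- the common part of `μ` and its translate by a fixed point `γ` of `n` is invariant -/
lemma inf_inv {μ ω : Measure T} [IsFiniteMeasure μ] {n : ℕ}
    (hμ : MeasurePreserving (fun x : T => n • x) μ μ)
    (hω : ω.map (fun x : T => n • x) = ω) :
    (μ ⊓ ω).map (fun x : T => n • x) = μ ⊓ ω := by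
  have hle : (μ ⊓ ω).map (fun x : T => n • x) ≤ μ ⊓ ω := by
    refine le_inf ?_ ?_
    · calc (μ ⊓ ω).map (fun x : T => n • x) ≤ μ.map (fun x : T => n • x) :=
          Measure.map_mono inf_le_left (meas_smul n)
        _ = μ := hμ.map_eq
    · calc (μ ⊓ ω).map (fun x : T => n • x) ≤ ω.map (fun x : T => n • x) :=
          Measure.map_mono inf_le_right (meas_smul n)
        _ = ω := hω
  have : IsFiniteMeasure (μ ⊓ ω) := isFiniteMeasure_of_le μ inf_le_left
  refine eq_of_le_univ hle ?_
  rw [Measure.map_apply (meas_smul n) MeasurableSet.univ, preimage_univ]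

/-- a carrier of the common part -/
lemma carrier (μ κ : Measure T) [IsFiniteMeasure μ] [IsFiniteMeasure κ] :
    ∃ P : Set T, MeasurableSet P ∧ κ Pᶜ = 0 ∧ ∀ A : Set T, κ A = 0 → μ (A ∩ P) = 0 := by
  have hLD : μ.HaveLebesgueDecomposition κ := Measure.haveLebesgueDecomposition_of_sigmaFinite μ κ
  obtain ⟨P, hPm, h1, h2⟩ := Measure.mutuallySingular_singularPart μ κ
  refine ⟨P, hPm, h2, fun A hA => ?_⟩
  rw [μ.haveLebesgueDecomposition_add κ, Measure.add_apply]
  have h3 : (μ.singularPart κ) (A ∩ P) = 0 := measure_mono_null inter_subset_right h1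
  have h4 : (κ.withDensity (μ.rnDeriv κ)) (A ∩ P) = 0 :=
    withDensity_absolutelyContinuous _ _ (measure_mono_null inter_subset_left hA)
  rw [h3, h4, add_zero]

/-- **Only fixed translations overlap.** Let `n` be injective on a set of full measure `B` of `ν`,
and let `n` map `β` to a fixed point. If `μ` is not singular to the translate of `ν` by `β` then
`n β = β`. -/
lemma fixed_of_overlap {μ ν : Measure T} [IsFiniteMeasure μ] [IsFiniteMeasure ν] {n : ℕ}
    (hμ : MeasurePreserving (fun x : T => n • x) μ μ)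
    (hν : MeasurePreserving (fun x : T => n • x) ν ν) {B : Set T} (hB : ν Bᶜ = 0)
    (hBm : MeasurableSet B)
    (hinj : ∀ x ∈ B, ∀ y ∈ B, n • x = n • y → x = y) {β : T} (hβ : n • n • β = n • β)
    (hns : ¬ μ ⟂ₘ tr β ν) : n • β = β := by
  have hfin : ∀ γ, IsFiniteMeasure (tr γ ν) := fun γ => by unfold tr; infer_instance
  set κ := μ ⊓ tr β ν with hκ
  have hκ0 : κ ≠ 0 := inf_ne hns
  have : IsFiniteMeasure κ := isFiniteMeasure_of_le μ inf_le_left
  set γ := n • β with hγ
  set κγ := μ ⊓ tr γ ν with hκγ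
  have : IsFiniteMeasure κγ := isFiniteMeasure_of_le μ inf_le_left
  have hinv : κγ.map (fun x : T => n • x) = κγ := inf_inv hμ (by rw [tr_smul hν, hβ])
  obtain ⟨P, hPm, hP1, hP2⟩ := carrier μ κγ
  have hm := meas_smul n
  -- the carrier is almost invariant
  have hA1 : μ (P \ (fun x : T => n • x) ⁻¹' P) = 0 := by
    have h1 : κγ ((fun x : T => n • x) ⁻¹' P)ᶜ = 0 := by
      rw [← preimage_compl, ← Measure.map_apply hm hPm.compl, hinv]
      exact hP1
    have h2 := hP2 _ h1
    rwa [inter_comm, ← sdiff_eq] at h2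
  have hA2 : μ ((fun x : T => n • x) ⁻¹' P \ P) = 0 := by
    have h1 : μ ((fun x : T => n • x) ⁻¹' P) = μ P := hμ.measure_preimage hPm.nullMeasurableSet
    have h2 := measure_inter_add_sdiff (μ := μ) ((fun x : T => n • x) ⁻¹' P) hPm
    have h3 := measure_inter_add_sdiff (μ := μ) P (hm hPm)
    rw [hA1, add_zero, inter_comm] at h3
    rw [h3, h1] at h2
    have h4 : μ P ≠ ∞ := measure_ne_top _ _
    have h5 : μ P + μ ((fun x : T => n • x) ⁻¹' P \ P) = μ P + 0 := by rw [h2, add_zero]
    exact (ENNReal.add_right_inj h4).1 h5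
  -- `κ` is carried by `P`
  have hκμ : κ ≤ μ := inf_le_left
  have hκP : κ Pᶜ = 0 := by
    have h1 : κ.map (fun x : T => n • x) ≤ κγ := by
      refine le_inf ?_ ?_
      · calc κ.map (fun x : T => n • x) ≤ μ.map (fun x : T => n • x) :=
            Measure.map_mono hκμ hm
          _ = μ := hμ.map_eq
      · calc κ.map (fun x : T => n • x) ≤ (tr β ν).map (fun x : T => n • x) :=
            Measure.map_mono inf_le_right hm
          _ = tr γ ν := tr_smul hν β
    have h2 : κ ((fun x : T => n • x) ⁻¹' Pᶜ) = 0 := by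
      rw [← Measure.map_apply hm hPm.compl]
      exact le_antisymm ((h1 _).trans hP1.le) bot_le
    have h3 : κ ((fun x : T => n • x) ⁻¹' P \ P) = 0 := le_antisymm ((hκμ _).trans hA2.le) bot_le
    refine measure_mono_null (fun x hx => ?_) (measure_union_null h2 h3)
    by_cases h : n • x ∈ P
    · exact Or.inr ⟨h, hx⟩
    · exact Or.inl h
  -- the three almost sure properties
  have hsub : ∀ γ' : T, (tr γ' ν) {x | x - γ' ∉ B} = 0 := by
    intro γ'
    unfold tr
    have hms : MeasurableSet {x : T | x - γ' ∉ B} := (measurable_sub_const γ') hBm.compl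
    rw [Measure.map_apply (meas_add γ') hms]
    have : (fun x : T => x + γ') ⁻¹' {x | x - γ' ∉ B} = Bᶜ := by
      ext x
      simp
    rw [this, hB]
  have hb1 : κ {x | x - β ∉ B} = 0 := by
    have h1 : κ ≤ tr β ν := inf_le_right
    exact le_antisymm ((h1 _).trans (hsub β).le) bot_le
  have hb2 : κ {x | x - γ ∉ B} = 0 := by
    have h1 : κγ ≤ tr γ ν := inf_le_right
    have h2 : κγ {x | x - γ ∉ B} = 0 := le_antisymm ((h1 _).trans (hsub γ).le) bot_le
    have h3 := hP2 _ h2
    have h4 : κ ({x | x - γ ∉ B} ∩ P) = 0 := le_antisymm ((hκμ _).trans h3.le) bot_le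
    refine measure_mono_null (fun x hx => ?_) (measure_union_null h4 hκP)
    by_cases h : x ∈ P
    · exact Or.inl ⟨hx, h⟩
    · exact Or.inr h
  have hne : ∃ x, x - β ∈ B ∧ x - γ ∈ B := by
    by_contra hcon
    push Not at hcon
    apply hκ0
    rw [← Measure.measure_univ_eq_zero]
    refine measure_mono_null (fun x _ => ?_) (measure_union_null hb1 hb2)
    by_cases h : x - β ∈ B
    · exact Or.inr (hcon x h)
    · exact Or.inl h
  obtain ⟨x, hx1, hx2⟩ := hne
  have h1 : n • (x - β) = n • (x - γ) := by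
    rw [nsmul_sub, nsmul_sub, hβ]
  have h2 := hinj _ hx1 _ hx2 h1
  have h3 : β = γ := sub_right_injective h2
  exact h3.symm

end Pool.Agent.TH277.FT
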