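import Pool.Agent.TH277.FT.A

/-!
The set on which the powers of `p` are injective, for a singular invariant measure, and the
order of the translations with overlap.
-/

set_option autoImplicit false

open MeasureTheory Filter Topology Set
open scoped ENNReal

namespace Pool.Agent.TH277.FT

open Pool.Agent.W764.FB (hh)
open Pool.Agent.W764.SH (decomp)

lemma exists_injective {p q : ℕ} (hp : 2 ≤ p) (hq : 2 ≤ q) (hpq : Nat.Coprime p q) (ν : Measure T)
    [IsProbabilityMeasure ν] (hip : MeasurePreserving (fun x : T => p • x) ν ν)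
    (hiq : MeasurePreserving (fun x : T => q • x) ν ν) (hs : ν ⟂ₘ (volume : Measure T)) :
    ∃ B : Set T, MeasurableSet B ∧ ν Bᶜ = 0 ∧
      ∀ L : ℕ, ∀ x ∈ B, ∀ y ∈ B, (p ^ L) • x = (p ^ L) • y → x = y := by
  obtain ⟨D, hDm, -, -, hD, B0, hB0m, hB0, hB0'⟩ := decomp hp hq hpq ν hip hiq
  have hD0 : ν D = 0 := by
    by_contra h0
    have h1 : (ν D • (volume : Measure T)) ⟂ₘ (volume : Measure T) := by
      rw [← hD]
      exact hs.mono_ac Measure.restrict_le_self.absolutelyContinuous Measure.AbsolutelyContinuous.rfl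
    have h2 : (volume : Measure T) ⟂ₘ (volume : Measure T) := by
      refine h1.mono_ac ?_ Measure.AbsolutelyContinuous.rfl
      exact Measure.absolutelyContinuous_smul h0
    rw [Measure.MutuallySingular.self_iff] at h2
    have h3 : (volume : Measure T) univ = 1 := measure_univ
    rw [h2] at h3
    simp at h3
  have hB0c : ν B0ᶜ = 0 := by
    refine measure_mono_null (fun x hx => ?_) (measure_union_null hD0 hB0)
    by_cases h : x ∈ D
    · exact Or.inl h
    · exact Or.inr ⟨h, hx⟩
  have hinj0 : ∀ x ∈ B0, ∀ y ∈ B0, p • x = p • y → x = y := by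
    intro x hx y hy hxy
    have h1 : p • (y - x) = 0 := by rw [nsmul_sub, hxy, sub_self]
    obtain ⟨m, hm, hmu⟩ := (AddCircle.nsmul_eq_zero_iff (by omega : 0 < p)).1 h1
    by_contra hne
    rcases Nat.eq_zero_or_pos m with rfl | hm0
    · apply hne
      have : y - x = 0 := by rw [← hmu]; simp
      exact (sub_eq_zero.1 this).symm
    · apply hB0' x hx m hm0 hm
      have : x + hh p 1 m = y := by
        have h2 : hh p 1 m = y - x := by
          rw [← hmu]
          unfold hh
          simp
        rw [h2]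
        abel
      rwa [this]
  refine ⟨⋂ i : ℕ, (fun x : T => (p ^ i) • x) ⁻¹' B0, ?_, ?_, ?_⟩
  · exact MeasurableSet.iInter fun i => meas_smul _ hB0m
  · rw [compl_iInter]
    refine measure_iUnion_null fun i => ?_
    have hi : MeasurePreserving (fun x : T => (p ^ i) • x) ν ν := by
      have := hip.iterate i
      rwa [smul_iterate] at this
    rw [← preimage_compl]
    rw [hi.measure_preimage hB0m.compl.nullMeasurableSet, hB0c]
  · intro L
    induction L with
    | zero =>
      intro x _ y _ h
      simpa using h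
    | succ L ih =>
      intro x hx y hy h
      apply ih x hx y hy
      have hx' := mem_iInter.1 hx L
      have hy' := mem_iInter.1 hy L
      apply hinj0 _ hx' _ hy'
      simp only
      rw [← mul_nsmul', ← mul_nsmul', ← pow_succ']
      exact h

/-- a torsion point is mapped to a fixed point of a power of `p` -/
lemma exists_idem (p : ℕ) {β : T} (hβ : IsOfFinAddOrder β) :
    ∃ L : ℕ, 1 ≤ L ∧ (p ^ L) • (p ^ L) • β = (p ^ L) • β := by
  have hfin : (AddSubmonoid.multiples β : Set T).Finite :=
    finite_multiples.2 hβ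
  obtain ⟨i, j, hij, h⟩ : ∃ i j : ℕ, i < j ∧ (p ^ i) • β = (p ^ j) • β := by
    have hmap : ∀ n : ℕ, (p ^ n) • β ∈ (AddSubmonoid.multiples β : Set T) :=
      fun n => ⟨p ^ n, rfl⟩
    have := hfin.subset (range_subset_iff.2 hmap)
    by_contra hcon
    push Not at hcon
    refine infinite_range_of_injective (f := fun n : ℕ => (p ^ n) • β) ?_ this
    intro a b hab
    by_contra hne
    rcases lt_or_gt_of_ne hne with h1 | h1
    · exact hcon a b h1 hab
    · exact hcon b a h1 hab.symm
  -- eventual periodicity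
  set d := j - i with hd
  have hd0 : 1 ≤ d := by omega
  have hper : ∀ n, i ≤ n → ∀ k : ℕ, (p ^ (n + k * d)) • β = (p ^ n) • β := by
    intro n hn k
    induction k with
    | zero => simp
    | succ k ih =>
      rw [← ih]
      have e1 : n + (k + 1) * d = (n - i + k * d) + j := by
        rw [Nat.add_mul, one_mul]
        omega
      have e2 : n + k * d = (n - i + k * d) + i := by omega
      rw [e1, e2, pow_add p _ j, pow_add p _ i, mul_nsmul', mul_nsmul', h]
  refine ⟨(i + 1) * d, Nat.mul_pos (by omega) hd0, ?_⟩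
  rw [← mul_nsmul', ← pow_add]
  refine hper ((i + 1) * d) ?_ (i + 1)
  calc i ≤ i + 1 := by omega
    _ = (i + 1) * 1 := by ring
    _ ≤ (i + 1) * d := Nat.mul_le_mul_left _ hd0

lemma coprime_of_fixed {p : ℕ} (hp : 2 ≤ p) {β : T} {L : ℕ} (hL : 1 ≤ L) (h : (p ^ L) • β = β) :
    IsOfFinAddOrder β ∧ Nat.Coprime (addOrderOf β) p := by
  have hpL : 1 < p ^ L := Nat.one_lt_pow (by omega) (by omega)
  have h1 : (p ^ L - 1) • β = 0 := by
    have h2 : (p ^ L - 1) • β + β = β := by
      rw [← succ_nsmul]
      have : p ^ L - 1 + 1 = p ^ L := by omega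
      rw [this, h]
    simpa using h2
  refine ⟨isOfFinAddOrder_iff_nsmul_eq_zero.2 ⟨p ^ L - 1, by omega, h1⟩, ?_⟩
  have hdvd : addOrderOf β ∣ p ^ L - 1 := addOrderOf_dvd_of_nsmul_eq_zero h1
  have hcop : Nat.Coprime (p ^ L - 1) p := by
    have h3 : Nat.Coprime (p ^ L - 1) (p ^ L) := by
      rw [Nat.coprime_comm]
      have h4 : p ^ L = (p ^ L - 1) + 1 := by omega
      rw [h4]
      simp
    exact Nat.Coprime.coprime_dvd_right (dvd_pow_self p (by omega)) h3
  exact Nat.Coprime.coprime_dvd_left hdvd hcop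

/-- the order of a torsion translation with overlap is prime to `p` -/
lemma order_coprime {p q : ℕ} (hp : 2 ≤ p) (hq : 2 ≤ q) (hpq : Nat.Coprime p q) (μ ν : Measure T)
    [IsProbabilityMeasure μ] [IsProbabilityMeasure ν]
    (hμp : MeasurePreserving (fun x : T => p • x) μ μ)
    (hνp : MeasurePreserving (fun x : T => p • x) ν ν)
    (hνq : MeasurePreserving (fun x : T => q • x) ν ν) (hs : ν ⟂ₘ (volume : Measure T)) {β : T}
    (hβ : IsOfFinAddOrder β) (hns : ¬ μ ⟂ₘ tr β ν) : Nat.Coprime (addOrderOf β) p := by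
  obtain ⟨B, hBm, hB, hinj⟩ := exists_injective hp hq hpq ν hνp hνq hs
  obtain ⟨L, hL, hid⟩ := exists_idem p hβ
  have hit : ∀ {ρ : Measure T}, MeasurePreserving (fun x : T => p • x) ρ ρ →
      MeasurePreserving (fun x : T => (p ^ L) • x) ρ ρ := by
    intro ρ h
    have := h.iterate L
    rwa [smul_iterate] at this
  exact (coprime_of_fixed hp hL (fixed_of_overlap (hit hμp) (hit hνp) hB hBm (hinj L) hid hns)).2

end Pool.Agent.TH277.FT
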