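import Pool.Agent.TH277.FT.B

/-!
Finiteness of the set of translations with a given overlap.
-/

set_option autoImplicit false

open MeasureTheory Filter Topology Set
open scoped ENNReal

namespace Pool.Agent.TH277.FT

/-- the overlap is seen by continuous test functions -/
def Tst (c : ℝ) (ρ₁ ρ₂ : Measure T) : Prop :=
  ∀ f : T → ℝ, Continuous f → (∀ x, 0 ≤ f x) → (∀ x, f x ≤ 1) →
    c ≤ ∫ x, f x ∂ρ₁ + ∫ x, (1 - f x) ∂ρ₂

lemma int_of {ρ : Measure T} [IsFiniteMeasure ρ] {f : T → ℝ} (hf : Continuous f) :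
    Integrable f ρ :=
  hf.integrable_of_hasCompactSupport (HasCompactSupport.of_compactSpace f)

lemma tst_of_overlap {c : ℝ} {ρ₁ ρ₂ κ : Measure T} [IsFiniteMeasure ρ₁] [IsFiniteMeasure ρ₂]
    (h1 : κ ≤ ρ₁) (h2 : κ ≤ ρ₂) (hc : ENNReal.ofReal c ≤ κ univ) : Tst c ρ₁ ρ₂ := by
  intro f hf h0 h1'
  have : IsFiniteMeasure κ := isFiniteMeasure_of_le ρ₁ h1
  have hg : Continuous fun x => 1 - f x := continuous_const.sub hf
  have e1 : ∫ x, f x ∂κ ≤ ∫ x, f x ∂ρ₁ :=
    integral_mono_measure h1 (ae_of_all _ h0) (int_of hf)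
  have e2 : ∫ x, (1 - f x) ∂κ ≤ ∫ x, (1 - f x) ∂ρ₂ :=
    integral_mono_measure h2 (ae_of_all _ fun x => sub_nonneg.2 (h1' x)) (int_of hg)
  have e3 : ∫ x, f x ∂κ + ∫ x, (1 - f x) ∂κ = κ.real univ := by
    rw [← integral_add (int_of hf) (int_of hg)]
    simp
  have e4 : c ≤ κ.real univ := by
    rcases le_or_gt c 0 with hc0 | hc0
    · exact hc0.trans measureReal_nonneg
    · rw [measureReal_def]
      have := ENNReal.toReal_mono (measure_ne_top κ univ) hc
      rwa [ENNReal.toReal_ofReal hc0.le] at this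
  linarith

/-- the test condition fails for singular measures -/
lemma not_tst {c : ℝ} (hc : 0 < c) {ρ₁ ρ₂ : Measure T} [IsFiniteMeasure ρ₁]
    [IsProbabilityMeasure ρ₂] (hs : ρ₁ ⟂ₘ ρ₂) : ¬ Tst c ρ₁ ρ₂ := by
  intro h
  obtain ⟨S, hSm, hS1, hS2⟩ := hs
  set ε : ℝ := c / 4 with hε
  have hε0 : 0 < ε := by positivity
  have hεE : ENNReal.ofReal ε ≠ 0 := by simpa using hε0
  obtain ⟨K, hKS, hKc, hK⟩ := hSm.exists_isCompact_lt_add (μ := ρ₂) (measure_ne_top _ _) hεE
  have hK1 : ρ₁ K = 0 := measure_mono_null hKS hS1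
  obtain ⟨U, hKU, hUo, hU⟩ := K.exists_isOpen_lt_of_lt (μ := ρ₁) (ENNReal.ofReal ε)
    (by rw [hK1]; exact pos_iff_ne_zero.2 hεE)
  obtain ⟨f, hf0, hf1, hf⟩ := exists_continuous_zero_one_of_isClosed hUo.isClosed_compl
    hKc.isClosed (disjoint_compl_left_iff_subset.2 hKU)
  have h1 := h f f.continuous (fun x => (hf x).1) (fun x => (hf x).2)
  have hKm : MeasurableSet K := hKc.measurableSet
  have hUm : MeasurableSet U := hUo.measurableSet
  have e1 : ∫ x, f x ∂ρ₁ ≤ ε := by
    calc ∫ x, f x ∂ρ₁ ≤ ∫ x, U.indicator (fun _ => (1 : ℝ)) x ∂ρ₁ := by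
          refine integral_mono (int_of f.continuous)
            ((integrable_const (1 : ℝ)).indicator hUm) fun x => ?_
          by_cases hx : x ∈ U
          · rw [indicator_of_mem hx]; exact (hf x).2
          · rw [indicator_of_notMem hx]; exact (hf0 hx).le
      _ = ρ₁.real U := by simp [integral_indicator hUm]
      _ ≤ ε := by
          rw [measureReal_def]
          have := ENNReal.toReal_mono ENNReal.ofReal_ne_top hU.le
          rwa [ENNReal.toReal_ofReal hε0.le] at this
  have hKp : 1 - ε ≤ ρ₂.real K := by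
    have hS : ρ₂ S = 1 := by
      have := prob_add_prob_compl (μ := ρ₂) hSm
      rwa [hS2, add_zero] at this
    rw [hS] at hK
    have h3 : ENNReal.toReal 1 ≤ (ρ₂ K + ENNReal.ofReal ε).toReal :=
      ENNReal.toReal_mono (ENNReal.add_ne_top.2 ⟨measure_ne_top _ _, ENNReal.ofReal_ne_top⟩) hK.le
    rw [ENNReal.toReal_add (measure_ne_top _ _) ENNReal.ofReal_ne_top, ENNReal.toReal_ofReal hε0.le,
      ENNReal.toReal_one] at h3
    rw [measureReal_def]
    linarith
  have e2 : ∫ x, (1 - f x) ∂ρ₂ ≤ ε := by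
    rw [integral_sub (integrable_const _) (int_of f.continuous)]
    have h4 : ρ₂.real K ≤ ∫ x, f x ∂ρ₂ := by
      calc ρ₂.real K = ∫ x, K.indicator (fun _ => (1 : ℝ)) x ∂ρ₂ := by
            simp [integral_indicator hKm]
        _ ≤ ∫ x, f x ∂ρ₂ := by
            refine integral_mono ((integrable_const (1 : ℝ)).indicator hKm)
              (int_of f.continuous) fun x => ?_
            by_cases hx : x ∈ K
            · rw [indicator_of_mem hx]; exact (hf1 hx).ge
            · rw [indicator_of_notMem hx]; exact (hf x).1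
    simp only [integral_const, probReal_univ, smul_eq_mul, mul_one]
    linarith
  linarith

lemma int_tr {ν : Measure T} (β : T) (g : T → ℝ) :
    ∫ x, g x ∂(tr β ν) = ∫ x, g (x + β) ∂ν := by
  unfold tr
  exact (MeasurableEquiv.addRight β).measurableEmbedding.integral_map g

/-- continuity in the translation -/
lemma cont_int {ν : Measure T} [IsFiniteMeasure ν] {g : T → ℝ} (hg : Continuous g) :
    Continuous fun β : T => ∫ x, g (x + β) ∂ν := by
  obtain ⟨C, hC⟩ := isCompact_univ.exists_bound_of_continuousOn hg.continuousOn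
  refine continuous_of_dominated (bound := fun _ => C) ?_ ?_ (integrable_const _) ?_
  · intro β
    exact (hg.comp (continuous_add_const β)).aestronglyMeasurable
  · intro β
    exact ae_of_all _ fun x => hC _ (mem_univ _)
  · exact ae_of_all _ fun x => hg.comp (continuous_const_add x)

/-- the translations which pass the test -/
def KK (c : ℝ) (μ ν : Measure T) : Set T := {β | Tst c μ (tr β ν)}

lemma KK_closed (c : ℝ) (μ ν : Measure T) [IsFiniteMeasure μ] [IsFiniteMeasure ν] :
    IsClosed (KK c μ ν) := by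
  have : KK c μ ν = ⋂ f : {f : T → ℝ // Continuous f ∧ (∀ x, 0 ≤ f x) ∧ ∀ x, f x ≤ 1},
      {β | c ≤ ∫ x, f.1 x ∂μ + ∫ x, (1 - f.1 (x + β)) ∂ν} := by
    ext β
    simp only [KK, Tst, mem_ofPred_eq, mem_iInter, Subtype.forall, int_tr]
    exact ⟨fun h f hf => h f hf.1 hf.2.1 hf.2.2, fun h f h1 h2 h3 => h f ⟨h1, h2, h3⟩⟩
  rw [this]
  refine isClosed_iInter fun f => ?_
  refine isClosed_le continuous_const (continuous_const.add ?_)
  exact cont_int (g := fun y => 1 - f.1 y) (continuous_const.sub f.2.1)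

lemma KK_smul {c : ℝ} {μ ν : Measure T} {n : ℕ}
    (hμ : MeasurePreserving (fun x : T => n • x) μ μ)
    (hν : MeasurePreserving (fun x : T => n • x) ν ν) {β : T} (hβ : β ∈ KK c μ ν) :
    n • β ∈ KK c μ ν := by
  intro f hf h0 h1
  have hc : Continuous fun x : T => n • x := continuous_nsmul n
  have h := hβ (fun x => f (n • x)) (hf.comp hc) (fun x => h0 _) fun x => h1 _
  have hg : Continuous fun x => 1 - f x := continuous_const.sub hf
  have e0 : ∫ x, (1 - f x) ∂((tr β ν).map fun x : T => n • x) = ∫ x, (1 - f (n • x)) ∂(tr β ν) :=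
    integral_map (meas_smul n).aemeasurable hg.aestronglyMeasurable
  rw [← tr_smul hν β, e0]
  have e : ∫ x, f (n • x) ∂μ = ∫ x, f x ∂μ := by
    rw [← integral_map (meas_smul n).aemeasurable (hf.aestronglyMeasurable), hμ.map_eq]
  rw [← e]
  exact h

lemma avg_right {ν : Measure T} [IsProbabilityMeasure ν] {g : T → ℝ} (hg : Continuous g) :
    ∫ β, ∫ x, g (x + β) ∂ν ∂(volume : Measure T) = ∫ x, g x ∂(volume : Measure T) := by
  have hcont : Continuous fun z : T × T => g (z.2 + z.1) :=
    hg.comp (continuous_snd.add continuous_fst)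
  have hint : Integrable (fun z : T × T => g (z.2 + z.1)) ((volume : Measure T).prod ν) :=
    hcont.integrable_of_hasCompactSupport (HasCompactSupport.of_compactSpace _)
  rw [integral_integral_swap hint]
  have : ∀ x : T, ∫ β, g (x + β) ∂(volume : Measure T) = ∫ y, g y ∂(volume : Measure T) :=
    fun x => integral_add_left_eq_self g x
  simp [this]

/-- if all translations pass the test, neither measure is singular -/
lemma KK_univ {c : ℝ} (hc : 0 < c) {μ ν : Measure T} [IsProbabilityMeasure μ]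
    [IsProbabilityMeasure ν] (h : KK c μ ν = univ) :
    ¬ (μ ⟂ₘ (volume : Measure T)) ∧ ¬ (ν ⟂ₘ (volume : Measure T)) := by
  have hall : ∀ β : T, Tst c μ (tr β ν) := fun β => by
    have : β ∈ KK c μ ν := by rw [h]; trivial
    exact this
  constructor
  · intro hs
    refine not_tst hc hs fun f hf h0 h1 => ?_
    have hg : Continuous fun y => 1 - f y := continuous_const.sub hf
    rw [← avg_right (ν := ν) hg]
    have e1 : c = ∫ _β : T, c ∂(volume : Measure T) := by simp
    have e2 : ∫ x, f x ∂μ + ∫ β, ∫ x, (1 - f (x + β)) ∂ν ∂(volume : Measure T) =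
        ∫ β, (∫ x, f x ∂μ + ∫ x, (1 - f (x + β)) ∂ν) ∂(volume : Measure T) := by
      rw [integral_add (integrable_const _) (int_of (cont_int hg))]
      simp
    rw [e2, e1]
    refine integral_mono (integrable_const _) (int_of (continuous_const.add (cont_int hg)))
      fun β => ?_
    have := hall β f hf h0 h1
    rwa [int_tr] at this
  · intro hs
    refine not_tst hc hs.symm fun f hf h0 h1 => ?_
    have hneg : Continuous fun β : T => ∫ x, f (x + β) ∂μ := cont_int hf
    rw [← avg_right (ν := μ) hf]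
    have e1 : c = ∫ _β : T, c ∂(volume : Measure T) := by simp
    have e2 : ∫ β, ∫ x, f (x + β) ∂μ ∂(volume : Measure T) + ∫ x, (1 - f x) ∂ν =
        ∫ β, (∫ x, f (x + β) ∂μ + ∫ x, (1 - f x) ∂ν) ∂(volume : Measure T) := by
      rw [integral_add (int_of hneg) (integrable_const _)]
      simp
    rw [e2, e1]
    refine integral_mono (integrable_const _) (int_of (hneg.add continuous_const)) fun β => ?_
    have h2 := hall (-β) (fun x => f (x + β)) (hf.comp (continuous_add_const β)) (fun x => h0 _)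
      fun x => h1 _
    rw [int_tr] at h2
    simpa using h2

/-- **Finitely many translations with overlap at least `c`.** -/
lemma KK_finite {p q : ℕ} (hp : 2 ≤ p) (hq : 2 ≤ q)
    (hirr : Irrational (Real.log p / Real.log q)) {c : ℝ} (hc : 0 < c) {μ ν : Measure T}
    [IsProbabilityMeasure μ] [IsProbabilityMeasure ν]
    (hμp : MeasurePreserving (fun x : T => p • x) μ μ)
    (hμq : MeasurePreserving (fun x : T => q • x) μ μ)
    (hνp : MeasurePreserving (fun x : T => p • x) ν ν)
    (hνq : MeasurePreserving (fun x : T => q • x) ν ν)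
    (hs : μ ⟂ₘ (volume : Measure T) ∨ ν ⟂ₘ (volume : Measure T)) :
    (KK c μ ν).Finite ∧ ∀ β ∈ KK c μ ν, IsOfFinAddOrder β := by
  have hinv : Pool.Agent.H847R3.XpXq.Inv p q (KK c μ ν) :=
    fun x hx => ⟨KK_smul hμp hνp hx, KK_smul hμq hνq hx⟩
  have hfin : (KK c μ ν).Finite := by
    refine Pool.Agent.H847R3.XpXq.finite_of_inv hp hq hirr (KK_closed c μ ν) hinv fun h => ?_
    have := KK_univ hc h
    tauto
  refine ⟨hfin, fun β hβ => ?_⟩
  obtain ⟨d, hd, hdK⟩ := Pool.Agent.H847R3.XpXq.exists_den hp hfin hinv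
  exact isOfFinAddOrder_iff_nsmul_eq_zero.2 ⟨d, hd, hdK β hβ⟩

end Pool.Agent.TH277.FT
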