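import Pool.Agent.TH277.FT.C

/-!
A jointly ergodic measure which is not singular to Lebesgue measure is Lebesgue measure.
-/

set_option autoImplicit false

open MeasureTheory Filter Topology Set
open scoped ENNReal

namespace Pool.Agent.TH277.FT

open Pool.Agent.W764.HL (JErg strict_inv)

lemma eq_vol_of_erg {p q : ℕ} (hp : 2 ≤ p) (hq : 2 ≤ q) {μ : Measure T} [IsProbabilityMeasure μ]
    (hip : MeasurePreserving (fun x : T => p • x) μ μ)
    (hiq : MeasurePreserving (fun x : T => q • x) μ μ) (herg : JErg p q μ)
    (hns : ¬ μ ⟂ₘ (volume : Measure T)) : μ = volume := by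
  have hLD : μ.HaveLebesgueDecomposition (volume : Measure T) :=
    Measure.haveLebesgueDecomposition_of_sigmaFinite μ volume
  obtain ⟨S, hSm, hS1, hS2⟩ := Measure.mutuallySingular_singularPart μ (volume : Measure T)
  have hdec := μ.haveLebesgueDecomposition_add (volume : Measure T)
  set μs := μ.singularPart (volume : Measure T) with hμs
  set μa := (volume : Measure T).withDensity (μ.rnDeriv volume) with hμa
  have hale : μa ≤ μ := Measure.withDensity_rnDeriv_le _ _
  have hsle : μs ≤ μ := Measure.singularPart_le _ _
  have : IsFiniteMeasure μa := isFiniteMeasure_of_le μ hale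
  have : IsFiniteMeasure μs := isFiniteMeasure_of_le μ hsle
  have haac : μa ≪ (volume : Measure T) := withDensity_absolutelyContinuous _ _
  -- maximality of the absolutely continuous part
  have hmax : ∀ κ : Measure T, κ ≤ μ → κ ≪ (volume : Measure T) → κ ≤ μa := by
    intro κ hκ hκv
    refine Measure.le_iff.2 fun A hA => ?_
    have h1 : κ (A \ S) = 0 := measure_mono_null (fun x hx => hx.2) (hκv hS2)
    have h2 : κ A = κ (A ∩ S) := by
      rw [← measure_inter_add_sdiff (μ := κ) A hSm, h1, add_zero]
    rw [h2]
    calc κ (A ∩ S) ≤ μ (A ∩ S) := hκ _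
      _ = μs (A ∩ S) + μa (A ∩ S) := by rw [hdec, Measure.add_apply]
      _ = μa (A ∩ S) := by rw [measure_mono_null inter_subset_right hS1, zero_add]
      _ ≤ μa A := measure_mono inter_subset_left
  have hstep : ∀ n : ℕ, 2 ≤ n → MeasurePreserving (fun x : T => n • x) μ μ →
      μa.map (fun x : T => n • x) = μa ∧ μs.map (fun x : T => n • x) = μs := by
    intro n hn hin
    have hm := meas_smul n
    have hvol : MeasurePreserving (fun x : T => n • x) (volume : Measure T) volume :=
      (AddCircle.ergodic_nsmul (by omega : 1 < n)).toMeasurePreserving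
    have h1 : μa.map (fun x : T => n • x) = μa := by
      refine eq_of_le_univ (hmax _ ?_ ?_) ?_
      · exact (Measure.map_mono hale hm).trans hin.map_eq.le
      · have := haac.map hm
        rwa [hvol.map_eq] at this
      · rw [Measure.map_apply hm MeasurableSet.univ, preimage_univ]
    refine ⟨h1, ?_⟩
    have h2 : μs.map (fun x : T => n • x) + μa = μs + μa := by
      calc μs.map (fun x : T => n • x) + μa
          = μs.map (fun x : T => n • x) + μa.map (fun x : T => n • x) := by rw [h1]
        _ = (μs + μa).map (fun x : T => n • x) := (Measure.map_add _ _ hm).symm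
        _ = μ.map (fun x : T => n • x) := by rw [← hdec]
        _ = μ := hin.map_eq
        _ = μs + μa := hdec
    refine Measure.ext fun A hA => ?_
    have h3 := congrArg (fun ρ : Measure T => ρ A) h2
    simp only [Measure.add_apply] at h3
    exact (ENNReal.add_left_inj (measure_ne_top μa A)).1 h3
  have hp' := hstep p hp hip
  have hq' := hstep q hq hiq
  -- the absolutely continuous part is a multiple of Lebesgue measure
  obtain ⟨c, hc⟩ := (AddCircle.ergodic_nsmul (by omega : 1 < p)).eq_smul_of_absolutelyContinuous
    (ν := μa) ⟨meas_smul p, hp'.1⟩ haac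
  have hc0 : c ≠ 0 := by
    rintro rfl
    apply hns
    rw [hdec, hc, zero_smul, add_zero]
    exact Measure.mutuallySingular_singularPart _ _
  -- the carrier is almost invariant
  have hinv : ∀ n : ℕ, μa.map (fun x : T => n • x) = μa → μs.map (fun x : T => n • x) = μs →
      ∀ᵐ x ∂μ, (n • x ∈ S ↔ x ∈ S) := by
    intro n ha hs
    have hm := meas_smul n
    rw [hdec, ae_add_measure_iff]
    constructor
    · have h1 : ∀ᵐ x ∂μs, x ∉ S := by
        rw [ae_iff]
        simpa using hS1
      have h2 : ∀ᵐ x ∂μs, n • x ∉ S := by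
        rw [← hs] at h1
        exact ae_of_ae_map hm.aemeasurable h1
      filter_upwards [h1, h2] with x hx1 hx2
      exact ⟨fun h => absurd h hx2, fun h => absurd h hx1⟩
    · have h1 : ∀ᵐ x ∂μa, x ∈ S := by
        rw [ae_iff]
        exact haac hS2
      have h2 : ∀ᵐ x ∂μa, n • x ∈ S := by
        rw [← ha] at h1
        exact ae_of_ae_map hm.aemeasurable h1
      filter_upwards [h1, h2] with x hx1 hx2
      exact ⟨fun _ => hx1, fun _ => hx2⟩
  obtain ⟨D', hD'm, hD'p, hD'q, hD'⟩ := strict_inv hip hiq hSm (hinv p hp'.1 hp'.2)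
    (hinv q hq'.1 hq'.2)
  have heq : μ D' = μ S := measure_congr (eventuallyEq_set.2 hD')
  have hvS : (volume : Measure T) S = 1 := by
    have := prob_add_prob_compl (μ := (volume : Measure T)) hSm
    rwa [hS2, add_zero] at this
  have hμS : μ S = c := by
    rw [hdec, Measure.add_apply, hS1, zero_add, hc, Measure.smul_apply, hvS, smul_eq_mul, mul_one]
  rcases herg D' hD'm hD'p hD'q with h0 | h1
  · rw [heq, hμS] at h0
    exact absurd h0 hc0
  · rw [heq, hμS] at h1
    have hSc : μ Sᶜ = 0 := (prob_compl_eq_zero_iff hSm).2 (by rw [hμS, h1])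
    have hμs0 : μs = 0 := by
      rw [← Measure.measure_univ_eq_zero]
      refine measure_mono_null (fun x _ => ?_)
        (measure_union_null hS1 (le_antisymm ((hsle Sᶜ).trans hSc.le) bot_le))
      by_cases h : x ∈ S
      · exact Or.inl h
      · exact Or.inr h
    rw [hdec, hμs0, hc, h1, zero_add, one_smul]

end Pool.Agent.TH277.FT
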